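import Mathlib

set_option autoImplicit false

namespace Pool.Agent.Y785.AO

lemma ais {Ω : Type} (g : Equiv.Perm Ω) (x : Ω) : g (g⁻¹ x) = x := g.apply_symm_apply x

/-- Two colourings are equivalent under a permutation group when some permutation in the group
carries one to the other. -/
def colSetoid {Ω κ : Type} (K : Subgroup (Equiv.Perm Ω)) : Setoid (Ω → κ) where
  r c d := ∃ g ∈ K, ∀ x, d (g x) = c x
  iseqv :=
    { refl := fun c => ⟨1, K.one_mem, fun x => rfl⟩
      symm := by
        rintro c d ⟨g, hg, h⟩
        refine ⟨g⁻¹, K.inv_mem hg, fun x => ?_⟩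
        have := h (g⁻¹ x)
        rw [ais] at this
        exact this.symm
      trans := by
        rintro c d e ⟨g, hg, h⟩ ⟨k, hk, h'⟩
        refine ⟨k * g, K.mul_mem hk hg, fun x => ?_⟩
        rw [Equiv.Perm.mul_apply, h', h] }

/-- Two subsets are equivalent under a permutation group when some permutation in the group carries
one to the other. -/
def setSetoid {Ω : Type} (K : Subgroup (Equiv.Perm Ω)) : Setoid (Set Ω) where
  r A B := ∃ g ∈ K, ⇑g '' A = B
  iseqv :=
    { refl := fun A => ⟨1, K.one_mem, by simp⟩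
      symm := by
        rintro A B ⟨g, hg, rfl⟩
        exact ⟨g⁻¹, K.inv_mem hg, by rw [Set.image_image]; simp⟩
      trans := by
        rintro A B C ⟨g, hg, rfl⟩ ⟨h, hh, rfl⟩
        exact ⟨h * g, K.mul_mem hh hg, by rw [Set.image_image]; rfl⟩ }

end Pool.Agent.Y785.AO
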