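import Mathlib
import Pool.Agent.Results.MP_7a24ab_lc.Aleph1Orbits
import Pool.Agent.Y785.AO.Def

set_option autoImplicit false

namespace Pool.Agent.Y785.AO

open Ordinal Cardinal Set Filter
open Pool.Agent.Results.MP_7a24ab_lc.Aleph1Orbits

/-- gluing rank-preserving maps over a finite family -/
lemma RP_finset {κ : Type} (s : Finset κ) (F : Node → Node) (A : κ → Set Node)
    (h : ∀ k, RP F (A k)) : RP F (⋃ k ∈ s, A k) := by
  classical
  induction s using Finset.induction_on with
  | empty =>
    intro C hC δ
    have hC' : C = ∅ := by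
      simp only [Finset.notMem_empty, iUnion_of_empty, iUnion_empty] at hC
      exact subset_empty_iff.mp hC
    subst hC'
    simp
  | insert k s _ ih =>
    rw [Finset.set_biUnion_insert]
    exact RP_union (h k) ih

/-- colourings by finitely many colours: orbits are determined by the cardinalities and the ranks
of the colour classes -/
theorem col_iff {κ : Type} [Finite κ] (c d : Node → κ) :
    (∃ g ∈ H, ∀ x, d (g x) = c x) ↔
      ∀ k, (c ⁻¹' {k}).encard = (d ⁻¹' {k}).encard ∧ ∀ β, I β (c ⁻¹' {k}) ↔ I β (d ⁻¹' {k}) := by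
  classical
  constructor
  · rintro ⟨g, hg, h⟩ k
    have e : d ⁻¹' {k} = g '' (c ⁻¹' {k}) := by
      ext y
      constructor
      · intro hy
        refine ⟨g⁻¹ y, ?_, ais g y⟩
        have := h (g⁻¹ y)
        rw [ais] at this
        change c (g⁻¹ y) = k
        rw [← this]
        exact hy
      · rintro ⟨x, hx, rfl⟩
        change d (g x) = k
        rw [h]
        exact hx
    rw [e]
    exact ⟨(g.injective.encard_image _).symm, fun β => (hg _ β).symm⟩
  · intro h
    have hf : ∀ k, ∃ f : Node → Node, BijOn f (c ⁻¹' {k}) (d ⁻¹' {k}) ∧ RP f (c ⁻¹' {k}) :=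
      fun k => homog (h k).1 (h k).2
    choose f fb fr using hf
    let F : Node → Node := fun t => f (c t) t
    have hd : ∀ t, d (F t) = c t := fun t => (fb (c t)).mapsTo (rfl : c t = c t)
    have hbij : Function.Bijective F := by
      constructor
      · intro s t hst
        have h1 : c s = c t := by rw [← hd s, ← hd t, hst]
        have h2 : f (c t) s = f (c t) t := by
          have : F s = f (c t) s := by change f (c s) s = _; rw [h1]
          rw [← this, hst]
        exact (fb (c t)).injOn h1 rfl h2
      · intro b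
        obtain ⟨a, ha, hab⟩ := (fb (d b)).surjOn (rfl : d b = d b)
        refine ⟨a, ?_⟩
        change f (c a) a = b
        rw [show c a = d b from ha, hab]
    have := Fintype.ofFinite κ
    have hRP : RP F (⋃ k ∈ (Finset.univ : Finset κ), c ⁻¹' {k}) := by
      refine RP_finset _ _ _ (fun k => RP_congr (fr k) ?_)
      intro t ht
      change f k t = f (c t) t
      rw [show c t = k from ht]
    have hu : (⋃ k ∈ (Finset.univ : Finset κ), c ⁻¹' {k}) = (Set.univ : Set Node) := by
      ext t
      simp
    rw [hu] at hRP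
    exact ⟨Equiv.ofBijective F hbij, fun C δ => hRP C (subset_univ _) δ, fun x => hd x⟩

/-- sets with finite complement have no rank -/
lemma not_I_cofinite {A : Set Node} (h : Aᶜ.Finite) (β : Ordinal.{0}) : ¬ I β A := by
  intro hI
  have h1 : I β (univ : Set Node) := by
    rw [← union_compl_self A]
    exact I.union _ _ _ hI (I.fin _ _ h)
  exact (Gs_univ (Order.succ β)).2 β (Order.lt_succ β) h1

/-- the group of rank-preserving permutations is highly transitive -/
theorem highly_transitive (n : ℕ) (a b : Fin n → Node) (ha : Function.Injective a)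
    (hb : Function.Injective b) : ∃ g ∈ H, ∀ i, g (a i) = b i := by
  classical
  let col : (Fin n → Node) → Node → Option (Fin n) := fun a t =>
    if h : ∃ i, a i = t then some h.choose else none
  have hcol : ∀ a : Fin n → Node, Function.Injective a → ∀ i, col a (a i) = some i := by
    intro a ha i
    have hex : ∃ j, a j = a i := ⟨i, rfl⟩
    change (if h : ∃ j, a j = a i then some h.choose else none) = some i
    rw [dif_pos hex]
    exact congrArg some (ha hex.choose_spec)
  have hcs : ∀ a : Fin n → Node, Function.Injective a → ∀ i t, col a t = some i → t = a i := by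
    intro a ha i t ht
    by_cases hex : ∃ j, a j = t
    · obtain ⟨j, rfl⟩ := hex
      rw [hcol a ha j] at ht
      rw [Option.some_injective _ ht]
    · change (if h : ∃ j, a j = t then some h.choose else none) = some i at ht
      rw [dif_neg hex] at ht
      exact absurd ht (by simp)
  have hpre : ∀ a : Fin n → Node, Function.Injective a → ∀ i, col a ⁻¹' {some i} = {a i} := by
    intro a ha i
    ext t
    constructor
    · intro ht
      exact hcs a ha i t ht
    · rintro rfl
      exact hcol a ha i
  have hnone : ∀ a : Fin n → Node, Function.Injective a →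
      (col a ⁻¹' {none})ᶜ.Finite := by
    intro a ha
    refine (Set.finite_range a).subset ?_
    intro t ht
    by_contra hne
    apply ht
    change (if h : ∃ j, a j = t then some h.choose else none) = none
    have hne' : ¬ ∃ j, a j = t := hne
    rw [dif_neg hne']
  have hinf : ∀ a : Fin n → Node, Function.Injective a → (col a ⁻¹' {none}).encard = ⊤ := by
    intro a ha
    rw [Set.encard_eq_top_iff]
    intro hf
    have : (univ : Set Node).Finite := by
      rw [← union_compl_self (col a ⁻¹' {none})]
      exact hf.union (hnone a ha)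
    exact Set.infinite_univ this
  obtain ⟨g, hg, h⟩ := (col_iff (col a) (col b)).mpr (by
    intro k
    cases k with
    | none =>
      refine ⟨by rw [hinf a ha, hinf b hb], fun β => ?_⟩
      exact iff_of_false (not_I_cofinite (hnone a ha) β) (not_I_cofinite (hnone b hb) β)
    | some i =>
      rw [hpre a ha, hpre b hb]
      refine ⟨by rw [encard_singleton, encard_singleton], fun β => ?_⟩
      exact iff_of_true (I.fin _ _ (finite_singleton _)) (I.fin _ _ (finite_singleton _)))
  refine ⟨g, hg, fun i => ?_⟩
  apply hcs b hb i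
  rw [h, hcol a ha]

/-- code of the orbit of a colouring -/
noncomputable def ccode {κ : Type} (c : Node → κ) : κ → ℕ∞ × Option (ω₁ : Ordinal.{0}).ToType :=
  fun k => ((c ⁻¹' {k}).encard, rc (c ⁻¹' {k}))

lemma mk_code_le : Cardinal.mk (ℕ∞ × Option (ω₁ : Ordinal.{0}).ToType) ≤ ℵ₁ := by
  have hW : Cardinal.mk (ω₁ : Ordinal.{0}).ToType = ℵ₁ := by
    rw [Cardinal.mk_toType]; simp
  have hO : Cardinal.mk (Option (ω₁ : Ordinal.{0}).ToType) ≤ ℵ₁ := by
    rw [Cardinal.mk_option, hW]
    exact Cardinal.add_le_of_le (Cardinal.aleph0_le_aleph 1) le_rfl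
      (Cardinal.one_lt_aleph0.le.trans (Cardinal.aleph0_le_aleph 1))
  have hN : Cardinal.mk ℕ∞ ≤ ℵ₁ :=
    (Cardinal.mk_le_aleph0 (α := ℕ∞)).trans (Cardinal.aleph0_le_aleph 1)
  rw [Cardinal.mk_prod, Cardinal.lift_id, Cardinal.lift_id]
  exact Cardinal.mul_le_of_le (Cardinal.aleph0_le_aleph 1) hN hO

/-- at most `ℵ₁` orbits on colourings by finitely many colours -/
lemma mk_col_le {κ : Type} [Finite κ] : Cardinal.mk (Quotient (colSetoid (κ := κ) H)) ≤ ℵ₁ := by
  have := Fintype.ofFinite κ
  have hinj : Function.Injective (Quotient.lift (s := colSetoid (κ := κ) H) ccode (by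
      intro c d h
      have h' := (col_iff c d).mp h
      funext k
      unfold ccode
      rw [(h' k).1, rc_congr (h' k).2])) := by
    intro a b
    induction a using Quotient.inductionOn with
    | _ c =>
      induction b using Quotient.inductionOn with
      | _ d =>
        intro h
        simp only [Quotient.lift_mk] at h
        refine Quotient.sound ((col_iff c d).mpr fun k => ?_)
        have hk := congrFun h k
        simp only [ccode, Prod.mk.injEq] at hk
        exact ⟨hk.1, rc_eq hk.2⟩
  refine (Cardinal.mk_le_of_injective hinj).trans ?_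
  rw [← Cardinal.power_def, Cardinal.mk_fintype κ]
  exact (Cardinal.power_le_power_right mk_code_le).trans
    (Cardinal.power_nat_le (Cardinal.aleph0_le_aleph 1))

/-- at least `ℵ₁` orbits on colourings by at least two colours -/
lemma le_mk_col {κ : Type} [Finite κ] [Nontrivial κ] :
    ℵ₁ ≤ Cardinal.mk (Quotient (colSetoid (κ := κ) H)) := by
  classical
  have hW : Cardinal.mk (ω₁ : Ordinal.{0}).ToType = ℵ₁ := by
    rw [Cardinal.mk_toType]; simp
  rw [← hW]
  have hex : ∀ w : (ω₁ : Ordinal.{0}).ToType, ∃ C : Set Node,
      I (Ordinal.ToType.mk.symm w).1 C ∧ G (Ordinal.ToType.mk.symm w).1 C := by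
    intro w
    have hw : (Ordinal.ToType.mk.symm w).1 < ω₁ := (Ordinal.ToType.mk.symm w).2
    obtain ⟨C, -, h1, h2⟩ := down _ hw Set.univ (Gs_univ _)
    exact ⟨C, h1, h2.2⟩
  choose C hI hG using hex
  obtain ⟨k0, k1, hk⟩ := exists_pair_ne κ
  let c : (ω₁ : Ordinal.{0}).ToType → Node → κ := fun w t => if t ∈ C w then k0 else k1
  have hc : ∀ w, c w ⁻¹' {k0} = C w := by
    intro w
    ext t
    change (if t ∈ C w then k0 else k1) = k0 ↔ t ∈ C w
    by_cases ht : t ∈ C w
    · simp [ht]
    · simp [ht, hk.symm]
  refine Cardinal.mk_le_of_injective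
    (f := fun w => (Quotient.mk (colSetoid (κ := κ) H) (c w))) ?_
  intro w w' h
  have h1 := (((col_iff _ _).mp (Quotient.exact h)) k0).2
  rw [hc, hc] at h1
  apply Ordinal.ToType.mk.symm.injective
  apply Subtype.ext
  by_contra hne
  rcases lt_or_gt_of_ne hne with h2 | h2
  · exact hG w' _ h2 ((h1 _).mp (hI w))
  · exact hG w _ h2 ((h1 _).mpr (hI w'))

/-- passing to a subgroup can only increase the number of orbits -/
lemma mk_le_sub {Ω κ : Type} {H K : Subgroup (Equiv.Perm Ω)} (hKH : K ≤ H) :
    Cardinal.mk (Quotient (colSetoid (κ := κ) H)) ≤ Cardinal.mk (Quotient (colSetoid (κ := κ) K)) := by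
  refine Cardinal.mk_le_of_surjective (f := Quotient.map' (s₁ := colSetoid (κ := κ) K)
    (s₂ := colSetoid (κ := κ) H) id ?_) ?_
  · rintro c d ⟨g, hg, h⟩
    exact ⟨g, hKH hg, h⟩
  · intro q
    induction q using Quotient.inductionOn with
    | _ c => exact ⟨Quotient.mk _ c, rfl⟩

/-- passing to a subgroup multiplies the number of orbits by at most the index -/
lemma mk_sub_le {Ω κ : Type} {H K : Subgroup (Equiv.Perm Ω)} :
    Cardinal.mk (Quotient (colSetoid (κ := κ) K)) ≤
      Cardinal.mk (H ⧸ K.subgroupOf H) * Cardinal.mk (Quotient (colSetoid (κ := κ) H)) := by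
  rw [Cardinal.mul_def]
  refine Cardinal.mk_le_of_surjective (f := fun p : (H ⧸ K.subgroupOf H) ×
    Quotient (colSetoid (κ := κ) H) => Quotient.mk (colSetoid (κ := κ) K)
      (fun x => p.2.out ((p.1.out : H).1 x))) ?_
  intro q
  induction q using Quotient.inductionOn with
  | _ d =>
    -- `d` is equivalent under `H` to the representative `e` of its class
    set o : Quotient (colSetoid (κ := κ) H) := Quotient.mk _ d with ho
    have h1 : (colSetoid (κ := κ) H).r o.out d := Quotient.exact (Quotient.out_eq o)
    obtain ⟨g, hg, h⟩ := h1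
    -- `d (g x) = e x`
    let h0 : H := ⟨g⁻¹, H.inv_mem hg⟩
    refine ⟨(QuotientGroup.mk h0, o), ?_⟩
    apply Quotient.sound
    have h2 : (QuotientGroup.mk h0 : H ⧸ K.subgroupOf H) =
        QuotientGroup.mk ((QuotientGroup.mk h0 : H ⧸ K.subgroupOf H).out) :=
      (QuotientGroup.out_eq' _).symm
    rw [QuotientGroup.eq] at h2
    set r : H := (QuotientGroup.mk h0 : H ⧸ K.subgroupOf H).out with hr
    have h3 : g * r.1 ∈ K := by
      have := Subgroup.mem_subgroupOf.mp h2
      simpa [h0] using this
    refine ⟨g * r.1, h3, fun x => ?_⟩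
    rw [Equiv.Perm.mul_apply, h]

end Pool.Agent.Y785.AO
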